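import Pool.Agent.Work.MP_80ff4e_al.Interface

/-!
# MP_80ff4e_al: AR (arithmetic of the weights)
-/

set_option autoImplicit false

namespace PCF.H91

theorem exists_gcd (W : Set ℕ) : ∃ e : ℕ, (∀ w ∈ W, e ∣ w) ∧
    ∀ q m : ℕ, (∀ w ∈ W, q ∣ m * w) → q ∣ m * e := by
  classical
  obtain ⟨a, ha⟩ := (IsPrincipalIdealRing.principal
    (Ideal.span ((fun n : ℕ => (n : ℤ)) '' W))).principal
  refine ⟨a.natAbs, fun w hw => ?_, fun q m h => ?_⟩
  · have h1 : (w : ℤ) ∈ Ideal.span ((fun n : ℕ => (n : ℤ)) '' W) :=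
      Ideal.subset_span ⟨w, hw, rfl⟩
    rw [ha] at h1
    have h2 : a ∣ (w : ℤ) := Ideal.mem_span_singleton.1 h1
    exact Int.natAbs_dvd_natAbs.2 h2 |>.trans (by simp)
  · have h1 : a ∈ Ideal.span ((fun n : ℕ => (n : ℤ)) '' W) := by
      rw [ha]; exact Ideal.mem_span_singleton_self a
    have h2 : (q : ℤ) ∣ (m : ℤ) * a := by
      refine Submodule.span_induction (p := fun x _ => (q : ℤ) ∣ (m : ℤ) * x) ?_ ?_ ?_ ?_ h1
      · rintro _ ⟨w, hw, rfl⟩
        have := h w hw
        show (q : ℤ) ∣ (m : ℤ) * ((w : ℕ) : ℤ)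
        exact_mod_cast this
      · simp
      · intro x y _ _ hx hy
        rw [mul_add]; exact dvd_add hx hy
      · intro c x _ hx
        rw [smul_eq_mul, mul_left_comm]; exact Dvd.dvd.mul_left hx c
    have h3 := Int.natAbs_dvd_natAbs.2 h2
    rwa [Int.natAbs_mul, Int.natAbs_natCast, Int.natAbs_natCast] at h3

theorem stmt_AR : Stmt_AR := by
  classical
  intro d F P deg fib hd hmem hdeg0 hadd hsum hpos hfwd hcrit hRH
  have hg := fun z => exists_gcd {w | ∃ n, ∃ u ∈ fib n z, u ∉ P ∧ deg n u = w}
  choose e he1' he2' using hg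
  have he1 : ∀ z n u, u ∈ fib n z → u ∉ P → e z ∣ deg n u := fun z n u hu hu' =>
    he1' z _ ⟨n, u, hu, hu', rfl⟩
  have he2 : ∀ z q m, (∀ n, ∀ u ∈ fib n z, u ∉ P → q ∣ m * deg n u) → q ∣ m * e z := by
    intro z q m h
    refine he2' z q m ?_
    rintro w ⟨n, u, hu, hu', rfl⟩
    exact h n u hu hu'
  have heP : ∀ z, z ∉ P → e z = 1 := by
    intro z hz
    have := he1 z 0 z (by rw [hmem]; rfl) hz
    rw [hdeg0] at this
    exact Nat.dvd_one.1 this
  have hkey : ∀ u, e (F u) ∣ deg 1 u * e u := by
    intro u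
    refine he2 u _ _ fun n v hv hv' => ?_
    have h1 : F^[n] v = u := (hmem n u v).1 hv
    have h2 : deg (1 + n) v = deg 1 u * deg n v := by rw [hadd, h1]
    rw [← h2]
    refine he1 _ _ _ ?_ hv'
    rw [hmem, Nat.add_comm, Function.iterate_succ_apply', h1]
  set x : ℂ → ℚ := fun z => ((e z : ℚ))⁻¹ with hx
  have hx0 : ∀ z, 0 ≤ x z := fun z => by simp only [hx]; positivity
  have hx1 : ∀ z, x z ≤ 1 := by
    intro z
    simp only [hx]
    rcases Nat.eq_zero_or_pos (e z) with h | h
    · rw [h]; simp
    · apply inv_le_one_of_one_le₀; exact_mod_cast h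
  have hx2 : ∀ z, e z ≠ 1 → x z ≤ 1 / 2 := by
    intro z h
    simp only [hx]
    rcases Nat.eq_zero_or_pos (e z) with h' | h'
    · rw [h']; norm_num
    · have h2 : 2 ≤ e z := by omega
      rw [one_div]
      apply inv_anti₀ (by norm_num)
      exact_mod_cast h2
  have hxe1 : ∀ z, e z = 1 → x z = 1 := by
    intro z h; simp only [hx, h]; norm_num
  have hxe0 : ∀ z, e z = 0 → x z = 0 := by
    intro z h; simp only [hx, h]; norm_num
  have hineq : ∀ u, 0 ≤ (deg 1 u : ℚ) * x (F u) - x u := by
    intro u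
    have hk := hkey u
    have hp : (1 : ℚ) ≤ deg 1 u := by exact_mod_cast hpos 1 u
    rcases Nat.eq_zero_or_pos (e u) with h | h
    · rw [hxe0 u h, sub_zero]
      exact mul_nonneg (by linarith) (hx0 _)
    · rcases Nat.eq_zero_or_pos (e (F u)) with h' | h'
      · rw [h'] at hk
        have h0 := Nat.eq_zero_of_zero_dvd hk
        have := hpos 1 u
        rcases Nat.mul_eq_zero.1 h0 with h1 | h1 <;> omega
      · have h3 : e (F u) ≤ deg 1 u * e u :=
          Nat.le_of_dvd (Nat.mul_pos (hpos 1 u) h) hk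
        have h3' : (e (F u) : ℚ) ≤ deg 1 u * e u := by exact_mod_cast h3
        have ha : (0 : ℚ) < e u := by exact_mod_cast h
        have hb : (0 : ℚ) < e (F u) := by exact_mod_cast h'
        simp only [hx]
        rw [sub_nonneg, ← div_eq_mul_inv, inv_eq_one_div, div_le_div_iff₀ ha hb]
        linarith
  have heq : ∀ u, (deg 1 u : ℚ) * x (F u) - x u = 0 → e (F u) = deg 1 u * e u := by
    intro u h0
    have hk := hkey u
    have hp : (1 : ℚ) ≤ deg 1 u := by exact_mod_cast hpos 1 u
    rcases Nat.eq_zero_or_pos (e (F u)) with h' | h'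
    · rw [h'] at hk ⊢
      exact (Nat.eq_zero_of_zero_dvd hk).symm
    · have hb : (0 : ℚ) < e (F u) := by exact_mod_cast h'
      rcases Nat.eq_zero_or_pos (e u) with h | h
      · exfalso
        rw [hxe0 u h, sub_zero] at h0
        have : 0 < (deg 1 u : ℚ) * x (F u) := by
          simp only [hx]; positivity
        linarith
      · have ha : (0 : ℚ) < e u := by exact_mod_cast h
        simp only [hx] at h0
        have h1 : (deg 1 u : ℚ) * (e u) = e (F u) := by
          have h2 : (deg 1 u : ℚ) * (e (F u) : ℚ)⁻¹ = (e u : ℚ)⁻¹ := by linarith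
          field_simp at h2
          linarith
        exact_mod_cast h1.symm
  -- sums
  have hFmem : ∀ z u, u ∈ fib 1 z ↔ F u = z := fun z u => by rw [hmem]; rfl
  have hcard : ∀ z, (fib 1 z).card ≤ d := by
    intro z
    have h1 := hsum 1 z
    rw [pow_one] at h1
    rw [← h1, Finset.card_eq_sum_ones]
    exact Finset.sum_le_sum fun u _ => hpos 1 u
  have hRH' : ∑ z ∈ P, ((d : ℚ) - (fib 1 z).card) = d - 1 := by
    have h1 : ((∑ z ∈ P, (d - (fib 1 z).card) : ℕ) : ℚ) = d - 1 := by
      have : (((∑ z ∈ P, (d - (fib 1 z).card)) + 1 : ℕ) : ℚ) = d := by rw [hRH]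
      push_cast at this ⊢
      linarith
    rw [← h1, Nat.cast_sum]
    refine Finset.sum_congr rfl fun z _ => ?_
    rw [Nat.cast_sub (hcard z)]
  have hdegsum : ∀ z, ∑ u ∈ fib 1 z, (deg 1 u : ℚ) = d := by
    intro z
    have h1 := hsum 1 z
    rw [pow_one] at h1
    exact_mod_cast h1
  set D : ℚ := ∑ z ∈ P, (1 - x z) with hD
  have hE1 : ∑ z ∈ P, ∑ u ∈ fib 1 z, (1 - x u) = D := by
    rw [← Finset.sum_biUnion]
    · symm
      refine Finset.sum_subset ?_ ?_
      · intro z hz
        rw [Finset.mem_biUnion]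
        exact ⟨F z, hfwd z hz, (hFmem _ _).2 rfl⟩
      · intro u _ hu
        rw [hxe1 u (heP u hu), sub_self]
    · intro z _ z' _ hzz
      rw [Function.onFun, Finset.disjoint_left]
      intro u hu hu'
      exact hzz (((hFmem _ _).1 hu).symm.trans ((hFmem _ _).1 hu'))
  have hident : ∑ z ∈ P, ∑ u ∈ fib 1 z, ((deg 1 u : ℚ) * x z - x u) = (d - 1) * (1 - D) := by
    have h1 : ∀ z ∈ P, ∑ u ∈ fib 1 z, ((deg 1 u : ℚ) * x z - x u) =
        (d - (fib 1 z).card) - d * (1 - x z) + ∑ u ∈ fib 1 z, (1 - x u) := by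
      intro z _
      rw [Finset.sum_sub_distrib, Finset.sum_sub_distrib, ← Finset.sum_mul, hdegsum]
      simp
      ring
    rw [Finset.sum_congr rfl h1, Finset.sum_add_distrib, Finset.sum_sub_distrib, hRH', hE1,
      ← Finset.mul_sum]
    ring
  have hdq : (0 : ℚ) < d - 1 := by
    have : (2 : ℚ) ≤ d := by exact_mod_cast hd
    linarith
  have hnn : ∀ z ∈ P, 0 ≤ ∑ u ∈ fib 1 z, ((deg 1 u : ℚ) * x z - x u) := by
    intro z _
    refine Finset.sum_nonneg fun u hu => ?_
    have := hineq u
    rwa [(hFmem z u).1 hu] at this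
  have hD1 : D ≤ 1 := by
    have h1 : 0 ≤ ((d : ℚ) - 1) * (1 - D) := by
      rw [← hident]; exact Finset.sum_nonneg hnn
    have := nonneg_of_mul_nonneg_right h1 hdq
    linarith
  have hterm : ∀ z ∈ P, 0 ≤ 1 - x z := fun z _ => by linarith [hx1 z]
  rcases lt_or_eq_of_le hD1 with hlt | hDe
  · -- nonexceptional
    left
    have hne0 : ∀ z ∈ P, e z ≠ 0 := by
      intro z hz h
      have := Finset.single_le_sum (f := fun z => 1 - x z) hterm hz
      simp only [hxe0 z h] at this
      rw [← hD] at this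
      linarith
    refine ⟨fun z hz => ?_, ?_⟩
    · by_contra hcon
      push Not at hcon
      apply hne0 z hz
      have := he2 z 0 1 (fun n u hu hu' => absurd (hcon n u hu) hu')
      rw [one_mul] at this
      exact Nat.eq_zero_of_zero_dvd this
    · have huniq : ∀ z ∈ P, ∀ z' ∈ P, z ≠ z' → e z ≠ 1 → e z' = 1 := by
        intro z hz z' hz' hzz h
        by_contra h'
        have hsub : ({z, z'} : Finset ℂ) ⊆ P := by
          intro w hw
          simp only [Finset.mem_insert, Finset.mem_singleton] at hw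
          rcases hw with rfl | rfl <;> assumption
        have := Finset.sum_le_sum_of_subset_of_nonneg hsub (fun w hw _ => hterm w hw)
        rw [Finset.sum_pair hzz, ← hD] at this
        have := hx2 z h
        have := hx2 z' h'
        linarith
      have hfin : ∀ z, e z = 1 → ∀ q : ℕ, q.Prime → ∃ n, ∃ u ∈ fib n z, u ∉ P ∧ ¬ q ∣ deg n u := by
        intro z hz q hq
        by_contra hcon
        push Not at hcon
        have := he2 z q 1 (fun n u hu hu' => by rw [one_mul]; exact hcon n u hu hu')
        rw [one_mul, hz] at this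
        exact hq.one_lt.ne' (Nat.dvd_one.1 this)
      by_cases hex : ∃ z ∈ P, e z ≠ 1
      · obtain ⟨z₀, hz₀, h0⟩ := hex
        exact ⟨z₀, fun z hz hzz q hq => hfin z (huniq z₀ hz₀ z hz hzz.symm h0) q hq⟩
      · push Not at hex
        exact ⟨0, fun z hz _ q hq => hfin z (hex z hz) q hq⟩
  · -- equality
    right
    have hall : ∀ z ∈ P, ∀ u, F u = z → e z = deg 1 u * e u := by
      intro z hz u hu
      have h1 : ∑ z ∈ P, ∑ u ∈ fib 1 z, ((deg 1 u : ℚ) * x z - x u) = 0 := by
        rw [hident, hDe]; ring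
      have h2 := (Finset.sum_eq_zero_iff_of_nonneg hnn).1 h1 z hz
      have h3 := (Finset.sum_eq_zero_iff_of_nonneg (fun u hu => by
        have := hineq u
        rwa [(hFmem z u).1 hu] at this)).1 h2 u ((hFmem z u).2 hu)
      rw [← hu]
      apply heq
      rw [hu]; exact h3
    by_cases hex : ∃ z₀ ∈ P, e z₀ = 0
    · left
      obtain ⟨z₀, hz₀, h0⟩ := hex
      refine ⟨z₀, hz₀, fun u hu => ?_⟩
      have h1 := hall z₀ hz₀ u hu
      rw [h0] at h1
      have h2 : e u = 0 := by
        rcases Nat.mul_eq_zero.1 h1.symm with h | h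
        · have := hpos 1 u; omega
        · exact h
      by_contra hne
      have huP : u ∈ P := by
        by_contra h
        rw [heP u h] at h2; omega
      have hsub : ({u, z₀} : Finset ℂ) ⊆ P := by
        intro w hw
        simp only [Finset.mem_insert, Finset.mem_singleton] at hw
        rcases hw with rfl | rfl <;> assumption
      have := Finset.sum_le_sum_of_subset_of_nonneg hsub (fun w hw _ => hterm w hw)
      rw [Finset.sum_pair hne, ← hD, hxe0 u h2, hxe0 z₀ h0] at this
      linarith
    · right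
      push Not at hex
      obtain ⟨z₁, hz₁, h1⟩ : ∃ z ∈ P, e z ≠ 1 := by
        by_contra hcon
        push Not at hcon
        have : D = 0 := by
          rw [hD]
          exact Finset.sum_eq_zero fun z hz => by rw [hxe1 z (hcon z hz), sub_self]
        linarith
      have hpos1 : 0 < x z₁ := by
        simp only [hx]
        have : 0 < e z₁ := Nat.pos_of_ne_zero (hex z₁ hz₁)
        positivity
      obtain ⟨z₂, hz₂, hz12, h2⟩ : ∃ z ∈ P, z ≠ z₁ ∧ e z ≠ 1 := by
        by_contra hcon
        push Not at hcon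
        have : D = 1 - x z₁ := by
          rw [hD]
          refine Finset.sum_eq_single_of_mem z₁ hz₁ fun z hz hzz => ?_
          rw [hxe1 z (hcon z hz hzz), sub_self]
        linarith
      have hothers : ∀ z ∈ P, z ≠ z₁ → z ≠ z₂ → e z = 1 := by
        intro z hz hz1 hz2
        by_contra h
        have hsub : ({z, z₁, z₂} : Finset ℂ) ⊆ P := by
          intro w hw
          simp only [Finset.mem_insert, Finset.mem_singleton] at hw
          rcases hw with rfl | rfl | rfl <;> assumption
        have := Finset.sum_le_sum_of_subset_of_nonneg hsub (fun w hw _ => hterm w hw)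
        rw [Finset.sum_insert (by simp [hz1, hz2]), Finset.sum_pair hz12.symm, ← hD] at this
        have := hx2 z h
        have := hx2 z₁ h1
        have := hx2 z₂ h2
        linarith
      have hDval : D = (1 - x z₁) + (1 - x z₂) := by
        rw [hD, ← Finset.sum_pair (f := fun z => 1 - x z) hz12.symm]
        symm
        refine Finset.sum_subset ?_ ?_
        · intro w hw
          simp only [Finset.mem_insert, Finset.mem_singleton] at hw
          rcases hw with rfl | rfl <;> assumption
        · intro w hw hw'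
          simp only [Finset.mem_insert, Finset.mem_singleton, not_or] at hw'
          rw [hxe1 w (hothers w hw hw'.1 hw'.2), sub_self]
      have hb1 := hx2 z₁ h1
      have hb2 := hx2 z₂ h2
      have hhalf : ∀ z, x z = 1 / 2 → e z = 2 := by
        intro z h
        simp only [hx] at h
        have : (e z : ℚ) = 2 := by
          rw [← inv_inv (e z : ℚ), h]; norm_num
        exact_mod_cast this
      have e1 : e z₁ = 2 := hhalf z₁ (by linarith)
      have e2 : e z₂ = 2 := hhalf z₂ (by linarith)
      have hdec : ∀ u, 2 = deg 1 u * e u → (deg 1 u = 1 ∧ (u = z₁ ∨ u = z₂)) ∨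
          (deg 1 u = 2 ∧ u ≠ z₁ ∧ u ≠ z₂) := by
        intro u hu
        by_cases hu1 : u = z₁ ∨ u = z₂
        · left
          refine ⟨?_, hu1⟩
          have : e u = 2 := by rcases hu1 with rfl | rfl <;> assumption
          rw [this] at hu; omega
        · right
          rw [not_or] at hu1
          have : e u = 1 := by
            by_cases h : u ∈ P
            · exact hothers u h hu1.1 hu1.2
            · exact heP u h
          rw [this] at hu
          exact ⟨by omega, hu1.1, hu1.2⟩
      refine ⟨z₁, z₂, hz12.symm, fun u hu => hdec u ?_⟩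
      rcases hu with hu | hu
      · rw [← hall z₁ hz₁ u hu, e1]
      · rw [← hall z₂ hz₂ u hu, e2]

end PCF.H91
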