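import Pool.Agent.Work.MP_80ff4e_al.Interface3

/-!
# MP_80ff4e_al: CORE (assembly) and MAIN
-/

set_option autoImplicit false

open Polynomial unitInterval

namespace PCF.H91

theorem core_levTrans {G X : Type} [Group G] [Fintype X] {S : SelfSim G X} (H : Core S) :
    S.LevTrans := by
  obtain ⟨τ, hτ⟩ := H.odo
  intro u v huv
  obtain ⟨k, hk⟩ := hτ u v huv
  exact ⟨τ ^ k, hk⟩

theorem stmt_CORE (h0 : Stmt_C0) (h11 : Stmt_C11) : Stmt_CORE := by
  intro G X _ _ S H
  obtain ⟨-, -, -, -, -, -, -, -, -, -, -, -, -, -, -, -, -, -, -, -, h⟩ :=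
    h0 G X S H.two_le H.faithful H.selfrep (core_levTrans H)
  exact h (h11 G X S H)

theorem stmt_MAIN (hN : Stmt_NEC) (hC : Stmt_CH) (hS : Stmt_SUF) : Stmt_MAIN := by
  intro f t hd hP ht
  constructor
  · intro hb
    exact ⟨fun h => hC f t hd hP ht h hb, fun h => hN f t hd hP ht h hb⟩
  · rintro ⟨h1, h2⟩
    exact hS f t hd hP ht h2 h1

end PCF.H91
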