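import Pool.Agent.Work.MP_80ff4e_al.Interface2

/-!
# MP_80ff4e_al: two common lemmas
-/

set_option autoImplicit false

namespace PCF

theorem Core.levTrans {G X : Type} [Group G] [Fintype X] {S : SelfSim G X} (hC : Core S) :
    S.LevTrans := by
  intro u v huv
  obtain ⟨τ, hτ⟩ := hC.odo
  obtain ⟨k, hk⟩ := hτ u v huv
  exact ⟨_, hk⟩

theorem Core.nonempty {G X : Type} [Group G] [Fintype X] {S : SelfSim G X} (hC : Core S) :
    Nonempty X := by
  have := hC.two_le
  exact Fintype.card_pos_iff.1 (by omega)

end PCF
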