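import Pool.Agent.Work.MP_80ff4e_al.Interface3

/-!
# MP_80ff4e_al: the condition `TFull` for polynomials that are not bad
-/

set_option autoImplicit false

open Polynomial unitInterval

namespace PCF.H91

theorem adm_postCrit {f : ℂ[X]} (hd : 2 ≤ f.natDegree) (hP : (postCrit f).Finite) :
    Adm f (postCrit f) where
  deg := hd
  fin := hP
  fwd := by
    rintro z ⟨c, hc, n, hn, rfl⟩
    refine ⟨c, hc, n + 1, by omega, ?_⟩
    show (fun x => f.eval x)^[n+1] c = _
    rw [Function.iterate_succ_apply']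
    rfl
  crit := fun c hc => ⟨c, hc, 1, le_rfl, rfl⟩

theorem labels_conj {G X : Type} [Group G] {S : SelfSim G X} {F : ℂ → ℂ} {deg : ℕ → ℂ → ℕ}
    {In : ℂ → Set G} {n : ℕ} {z : ℂ} {g : G} {π : List X → ℂ}
    (hIn : ∀ z g, ∀ h ∈ In z, g * h * g⁻¹ ∈ In z) (H : Labels S F deg In n z g π) (h : G) :
    Labels S F deg In n z (h * g * h⁻¹) (fun w => π (S.wact h⁻¹ w)) := by
  obtain ⟨h1, h2, h3, h4, h5⟩ := H
  refine ⟨fun w hw => h1 _ (by simp [hw]), fun u hu => ?_, fun w w' hw hw' => ?_,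
    fun w j hw => ?_, fun w hw => ?_⟩
  · obtain ⟨w, hw, hwu⟩ := h2 u hu
    exact ⟨S.wact h w, by simp [hw], by simpa using hwu⟩
  · show π _ = π _ ↔ _
    rw [h3 _ _ (by simp [hw]) (by simp [hw'])]
    refine exists_congr fun k => ?_
    rw [conj_pow, S.wact_mul, S.wact_mul, S.wact_eq_iff h]
  · rw [← h4 _ j (by simp [hw] : (S.wact h⁻¹ w).length = n), conj_pow, S.wact_mul, S.wact_mul,
      S.wact_eq_iff h]
  · have hw0 : (S.wact h⁻¹ w).length = n := by simp [hw]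
    have h5' := h5 _ hw0
    have h4' := (h4 (S.wact h⁻¹ w) (deg n (π (S.wact h⁻¹ w))) hw0).2 dvd_rfl
    have e : S.wsec ((h * g * h⁻¹) ^ deg n (π (S.wact h⁻¹ w))) w =
        S.wsec h (S.wact h⁻¹ w) * S.wsec (g ^ deg n (π (S.wact h⁻¹ w))) (S.wact h⁻¹ w) *
          (S.wsec h (S.wact h⁻¹ w))⁻¹ := by
      have := S.wsec_conj h (g ^ deg n (π (S.wact h⁻¹ w))) (S.wact h⁻¹ w)
      rw [S.wact_wact_inv, h4'] at this
      rw [conj_pow]
      exact this
    rw [e]
    exact hIn _ _ _ h5'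

section perm

variable {G X : Type} [Group G] (S : SelfSim G X)

/-- The action on the words of length `n`. -/
def permHom (n : ℕ) : G →* Equiv.Perm (List.Vector X n) where
  toFun g :=
    { toFun := fun w => ⟨S.wact g w.1, by rw [S.length_wact]; exact w.2⟩
      invFun := fun w => ⟨S.wact g⁻¹ w.1, by rw [S.length_wact]; exact w.2⟩
      left_inv := fun w => Subtype.ext (S.wact_inv_wact g w.1)
      right_inv := fun w => Subtype.ext (S.wact_wact_inv g w.1) }
  map_one' := Equiv.ext fun w => Subtype.ext (S.wact_one w.1)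
  map_mul' g h := Equiv.ext fun w => Subtype.ext (S.wact_mul g h w.1)

@[simp] theorem permHom_coe (n : ℕ) (g : G) (w : List.Vector X n) :
    (permHom S n g w).1 = S.wact g w.1 := rfl

end perm

open Classical in
theorem tfull_of_not_bad (hS2 : Stmt_S2) (hTR : Stmt_TR) (hP2 : Stmt_P2) (f : ℂ[X]) (t : ℂ)
    (hd : 2 ≤ f.natDegree) (hP : (postCrit f).Finite) (ht : t ∉ postCrit f) (hb : ¬ Bad f)
    (X : Type) [Fintype X] (T : PCFSys (IMG f t) X) (hF : T.F = fun z => f.eval z)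
    (hTP : (T.P : Set ℂ) = postCrit f) (Λ : List X ≃ Vertex f t)
    (h1 : ∀ w, (Λ w).1.1 = w.length)
    (h3 : ∀ (g : IMG f t) (w), Λ (T.S.wact g w) = g.1 (Λ w))
    (h4 : ∀ n z, z ∈ postCrit f → ∃ g ∈ T.In z, ∃ π,
          Labels T.S T.F T.deg T.In n z g π ∧ ∀ ε : ℝ, 0 < ε →
            ∃ (t' : ℂ) (ρ : Path t t'), Av (postCrit f) ρ ∧ ‖t' - z‖ < ε ∧
              ∀ w, w.length = n → ∃ y, Tr f n ρ (Λ w).1.2 y ∧ ‖y - π w‖ < ε)
    (h5 : ∀ γ : Path t t, Av (postCrit f) γ → ∃ g : IMG f t,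
          ∀ w, Tr f w.length γ (Λ w).1.2 (g.1 (Λ w)).1.2) : T.TFull := by
  intro n y hyP hper r hr w₀ hw₀
  by_contra hrw
  have hadm := adm_postCrit hd hP
  obtain ⟨-, huniq, -⟩ := hTR f (postCrit f) hadm
  have hit : ∀ m z, T.F^[m] z = it f m z := by
    intro m z; rw [hF]; rfl
  -- the point `z`
  have hzP : T.F^[n] y ∈ T.P := by
    clear hr
    induction n with
    | zero => exact hyP
    | succ n ih =>
      rw [Function.iterate_succ_apply']
      refine T.fwd _ ?_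
      clear ih hw₀
      induction n with
      | zero => exact hyP
      | succ n ih => rw [Function.iterate_succ_apply']; exact T.fwd _ ih
  have hzP' : T.F^[n] y ∈ postCrit f := by rw [← hTP]; exact hzP
  obtain ⟨g, hg, π, hπ, hgeo⟩ := h4 n _ hzP'
  obtain ⟨l1, l2, l3, l4, l5⟩ := id hπ
  obtain ⟨c₀, hc₀, hπc₀⟩ := l2 y rfl
  -- vectors
  have hS := hS2 (List.Vector X n) (permHom T.S n).range (permHom T.S n T.τ) ⟨_, rfl⟩
    (fun a b => by
      obtain ⟨k, hk⟩ := T.odo a.1 b.1 (a.2.trans b.2.symm)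
      exact ⟨k, by rw [← map_pow]; exact Subtype.ext hk⟩)
    (permHom T.S n g) ⟨_, rfl⟩ ⟨c₀, hc₀⟩ (fun v => r v.1) (fun h => hrw (congrFun h ⟨w₀, hw₀⟩))
  have hcyc : ∀ v : List.Vector X n, (permHom T.S n g).SameCycle ⟨c₀, hc₀⟩ v ↔ π v.1 = y := by
    intro v
    rw [← hπc₀, eq_comm, l3 _ _ hc₀ v.2]
    constructor
    · intro h
      obtain ⟨i, -, hi⟩ := h.exists_pow_eq'
      refine ⟨i, ?_⟩
      rw [← map_pow] at hi
      exact congrArg Subtype.val hi
    · rintro ⟨k, hk⟩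
      refine ⟨k, ?_⟩
      rw [zpow_natCast, ← map_pow]
      exact Subtype.ext hk
  have hsum : ∀ h ∈ (permHom T.S n).range,
      ∑ w ∈ Finset.univ.filter (fun w => (permHom T.S n g).SameCycle ⟨c₀, hc₀⟩ w),
        r (h w).1 = 0 := by
    rintro _ ⟨h, rfl⟩
    have := hr (h * g * h⁻¹) (T.In_conj _ h g hg) _ (labels_conj T.In_conj hπ h)
    rw [← this]
    refine Finset.sum_bij' (fun v _ => T.S.wact h v.1)
      (fun w hw => ⟨T.S.wact h⁻¹ w, by
        rw [T.S.length_wact]; exact mem_lev.1 (Finset.mem_filter.1 hw).1⟩) ?_ ?_ ?_ ?_ ?_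
    · intro v hv
      rw [Finset.mem_filter, hcyc] at hv
      rw [Finset.mem_filter, mem_lev, T.S.length_wact]
      exact ⟨v.2, by simpa using hv.2⟩
    · intro w hw
      rw [Finset.mem_filter] at hw
      rw [Finset.mem_filter, hcyc]
      exact ⟨Finset.mem_univ _, hw.2⟩
    · intro v hv
      exact Subtype.ext (T.S.wact_inv_wact h v.1)
    · intro w hw
      exact T.S.wact_wact_inv h w
    · intro v hv
      rfl
  obtain ⟨s₁, s₂, hs1, hs2, hle, hne, hC⟩ := hS (fun h hh => by convert hsum h hh)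
  -- points of the fibre
  have hΛn : ∀ v : List.Vector X n, it f n (Λ v.1).1.2 = t := by
    intro v
    have := (Λ v.1).2
    rwa [h1, v.2] at this
  have hΛinj : ∀ v v' : List.Vector X n, (Λ v.1).1.2 = (Λ v'.1).1.2 → v = v' := by
    intro v v' h
    have h' : Λ v.1 = Λ v'.1 := by
      apply Subtype.ext
      apply Prod.ext
      · rw [h1, h1, v.2, v'.2]
      · exact h
    exact Subtype.ext (Λ.injective h')
  -- setoids on `ℂ`
  let mk : Setoid (List.Vector X n) → Setoid ℂ := fun s =>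
    { r := fun x y => x = y ∨ ∃ u v, s u v ∧ (Λ u.1).1.2 = x ∧ (Λ v.1).1.2 = y
      iseqv :=
        { refl := fun x => Or.inl rfl
          symm := by
            rintro x y (h | ⟨u, v, h, hu, hv⟩)
            · exact Or.inl h.symm
            · exact Or.inr ⟨v, u, s.symm h, hv, hu⟩
          trans := by
            rintro x y z (rfl | ⟨u, v, h, hu, hv⟩) (rfl | ⟨u', v', h', hu', hv'⟩)
            · exact Or.inl rfl
            · exact Or.inr ⟨u', v', h', hu', hv'⟩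
            · exact Or.inr ⟨u, v, h, hu, hv⟩
            · have e := hΛinj v u' (hv.trans hu'.symm)
              subst e
              exact Or.inr ⟨u, v', s.trans h h', hu, hv'⟩ } }
  have hmk : ∀ s x y, (mk s) x y ↔ x = y ∨ ∃ u v, s u v ∧ (Λ u.1).1.2 = x ∧ (Λ v.1).1.2 = y :=
    fun s x y => Iff.rfl
  have hmk' : ∀ s (u v : List.Vector X n), (mk s) (Λ u.1).1.2 (Λ v.1).1.2 ↔ s u v := by
    intro s u v
    rw [hmk]
    constructor
    · rintro (h | ⟨u', v', h, hu, hv⟩)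
      · rw [hΛinj u v h]
      · rwa [hΛinj _ _ hu, hΛinj _ _ hv] at h
    · intro h
      exact Or.inr ⟨u, v, h, rfl, rfl⟩
  have hfib : ∀ s x y, (mk s) x y → x ≠ y → it f n x = t ∧ it f n y = t := by
    rintro s x y (h | ⟨u, v, h, rfl, rfl⟩) hxy
    · exact absurd h hxy
    · exact ⟨hΛn u, hΛn v⟩
  have hinv : ∀ s : Setoid (List.Vector X n),
      (∀ h ∈ (permHom T.S n).range, ∀ a b, s a b → s (h a) (h b)) →
      ∀ γ : Path t t, Av (postCrit f) γ → ∀ x x' y y', (mk s) x y → Tr f n γ x x' →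
        Tr f n γ y y' → (mk s) x' y' := by
    rintro s hs γ hγ x x' y y' (rfl | ⟨u, v, h, rfl, rfl⟩) hx hy
    · rw [huniq n t t γ hγ x x' y' hx hy]
    · obtain ⟨k, hk⟩ := h5 γ hγ
      have hku := hk u.1
      have hkv := hk v.1
      rw [← h3, u.2] at hku
      rw [← h3, v.2] at hkv
      rw [huniq n t t γ hγ _ _ _ hx hku, huniq n t t γ hγ _ _ _ hy hkv]
      exact (hmk' s (permHom T.S n k u) (permHom T.S n k v)).2 (hs _ ⟨k, rfl⟩ u v h)
  obtain ⟨k, a, h, hk, hah, hhu⟩ := hP2 f (postCrit f) hadm t n ht (mk s₁) (mk s₂)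
    (hfib s₁) (hfib s₂) (hinv s₁ hs1) (hinv s₂ hs2)
    (by
      rintro x y (rfl | ⟨u, v, h, rfl, rfl⟩)
      · exact (mk s₂).refl _
      · exact (hmk' s₂ u v).2 (hle h))
    (by
      intro he
      apply hne
      ext u v
      rw [← hmk' s₁, he, hmk' s₂])
    {x | ∃ w : List.Vector X n, π w.1 = y ∧ (Λ w.1).1.2 = x} y
    ⟨_, ⟨c₀, hc₀⟩, hπc₀, rfl⟩
    (by rintro x ⟨w, -, rfl⟩; exact hΛn w)
    (by
      intro ε hε
      obtain ⟨t', ρ, hρ, ht', hw⟩ := hgeo ε hε
      refine ⟨t', ρ, hρ, ?_, ?_⟩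
      · rw [← hit]; exact ht'
      · rintro x ⟨w, hwy, rfl⟩
        obtain ⟨y', hy', hy''⟩ := hw w.1 w.2
        rw [hwy] at hy''
        exact ⟨y', hy', hy''⟩)
    (by
      rintro x ⟨w, hwy, rfl⟩ b hb'
      rcases hb' with rfl | ⟨u, v, huv, hu, rfl⟩
      · exact ⟨_, ⟨w, hwy, rfl⟩, (mk s₁).refl _⟩
      · have e := hΛinj _ _ hu
        subst e
        obtain ⟨c, hc, hvc⟩ := hC u v ((hcyc u).2 hwy) huv
        exact ⟨_, ⟨c, (hcyc c).1 hc, rfl⟩, (hmk' s₁ v c).2 hvc⟩)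
  -- conclusion
  have hn : 1 ≤ n := by
    by_contra h0
    have h0' : n = 0 := by omega
    subst h0'
    apply hne
    ext u v
    have : u = v := Subsingleton.elim _ _
    subst this
    exact ⟨fun _ => s₂.refl _, fun _ => s₁.refl _⟩
  obtain ⟨p, hp, hpy⟩ := hper
  exact hb ⟨n, k, a, h, y, hn, hk, hah, hhu, p, hp, by rw [← hit]; exact hpy⟩

end PCF.H91
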