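import Pool.Agent.Work.MP_80ff4e_al_91.CORE
import Pool.Agent.Work.MP_80ff4e_al_91.TF

/-!
# MP_80ff4e_al: SUF (sufficiency)
-/

set_option autoImplicit false

open Polynomial unitInterval

namespace PCF.H91

theorem itp_one (f : ℂ[X]) : itp f 1 = f := by
  show f.comp X = f
  simp

theorem it_one (f : ℂ[X]) (z : ℂ) : it f 1 z = f.eval z := rfl

theorem it_succ (f : ℂ[X]) (n : ℕ) (z : ℂ) : it f (n + 1) z = f.eval (it f n z) :=
  Function.iterate_succ_apply' _ _ _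

theorem it_succ' (f : ℂ[X]) (n : ℕ) (z : ℂ) : it f (n + 1) z = it f n (f.eval z) :=
  Function.iterate_succ_apply _ _ _

theorem it_add (f : ℂ[X]) (m n : ℕ) (z : ℂ) : it f (m + n) z = it f m (it f n z) :=
  Function.iterate_add_apply _ _ _ _

/-- Nonexceptional polynomials. -/
def NEf (f : ℂ[X]) : Prop :=
  (∀ z ∈ postCrit f, ∃ n u, it f n u = z ∧ u ∉ postCrit f) ∧
    ∃ z₀, ∀ z ∈ postCrit f, z ≠ z₀ → ∀ q : ℕ, q.Prime →
      ∃ n u, it f n u = z ∧ u ∉ postCrit f ∧ ¬ q ∣ ldeg (itp f n) u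

/-- The arithmetic condition. -/
def AQf (f : ℂ[X]) : Prop :=
  ∀ z ∈ postCrit f, f.eval z = z → ∀ q : ℕ, q.Prime → Nat.Coprime (ldeg f z) q →
    ∃ u, f.eval u = z ∧ u ≠ z ∧ ¬ q ∣ ldeg f u

theorem core_of {G X : Type} [Group G] [Fintype X] (T : PCFSys G X) (hA2 : Stmt_A2)
    (hA3 : Stmt_A3) (hA4 : Stmt_A4) (hA5 : Stmt_A5) (hNE : T.NE) (hAQ : T.AQ) (hTF : T.TFull) :
    Core T.S where
  fg := Group.fg_iff.2 ⟨_, T.gen_top, T.P.finite_toSet.image _⟩
  two_le := T.two_le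
  faithful := T.faithful
  selfrep := T.selfrep
  odo := ⟨T.τ, T.odo⟩
  rfin := hA2 G X T hNE
  blk := ⟨_, hA3 G X T⟩
  q1 := hA4 G X T hNE hAQ
  tf := hA5 G X T hTF

/-- The case where all the hypotheses hold. -/
theorem suf_core (hS2 : Stmt_S2) (hTR : Stmt_TR) (hP2 : Stmt_P2) (hTOP : Stmt_TOP)
    (hBR : Stmt_BR) (hL : Stmt_L)
    (hA2 : Stmt_A2) (hA3 : Stmt_A3) (hA4 : Stmt_A4) (hA5 : Stmt_A5) (hCORE : Stmt_CORE)
    (f : ℂ[X]) (t : ℂ) (hd : 2 ≤ f.natDegree) (hP : (postCrit f).Finite) (ht : t ∉ postCrit f)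
    (hb : ¬ Bad f) (hNE : NEf f) (hAQ : AQf f) : IsBranch (IMG f t) := by
  obtain ⟨X, _, T, hX, hF, hTP, hdeg, hfib, Λ, h1, h2, h3, h4, h5, h6⟩ := hTOP f t hd hP ht
  have hTF := tfull_of_not_bad hS2 hTR hP2 f t hd hP ht hb X T hF hTP Λ h1 h3 h4 h6
  have hmem : ∀ z, z ∈ T.P ↔ z ∈ postCrit f := by
    intro z; rw [← hTP]; rfl
  have hit : ∀ n u, T.F^[n] u = it f n u := by
    intro n u; rw [hF]; rfl
  have hNE' : T.NE := by
    refine ⟨fun z hz => ?_, ?_⟩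
    · obtain ⟨n, u, hu, hu'⟩ := hNE.1 z ((hmem z).1 hz)
      exact ⟨n, u, by rw [T.mem_fib, hit, hu], fun h => hu' ((hmem u).1 h)⟩
    · obtain ⟨z₀, h⟩ := hNE.2
      refine ⟨z₀, fun z hz hzz q hq => ?_⟩
      obtain ⟨n, u, hu, hu', hq'⟩ := h z ((hmem z).1 hz) hzz q hq
      exact ⟨n, u, by rw [T.mem_fib, hit, hu], fun h => hu' ((hmem u).1 h), by
        rw [hdeg]; exact hq'⟩
  have hAQ' : T.AQ := by
    intro z hz hzz q hq hco
    rw [hdeg] at hco
    simp only [itp_one] at hco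
    have hzz' : f.eval z = z := by rw [hF] at hzz; exact hzz
    obtain ⟨u, hu, huz, hq'⟩ := hAQ z ((hmem z).1 hz) hzz' q hq hco
    refine ⟨u, by rw [T.mem_fib, hit]; exact hu, huz, ?_⟩
    rw [hdeg]
    simp only [itp_one]
    exact hq'
  exact (hBR f t X T.S Λ h1 h2 h3).1 (hCORE _ X T.S (core_of T hA2 hA3 hA4 hA5 hNE' hAQ' hTF))

theorem ne_of (hL : Stmt_L) (hAR : Stmt_AR) (hPA3 : Stmt_PA3) (hPA4 : Stmt_PA4) (f : ℂ[X])
    (hd : 2 ≤ f.natDegree) (hP : (postCrit f).Finite) (hb : ¬ Bad f) (hc : ¬ Cheb f) :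
    NEf f := by
  obtain ⟨L1, L2, L3, L4, L5, L6, L7, L8, L9⟩ := hL
  have hadm := adm_postCrit hd hP
  have hn1 : ∀ n, 1 ≤ (itp f n).natDegree := by
    intro n; rw [L2]; exact Nat.one_le_pow _ _ (by omega)
  have hf1 : 1 ≤ f.natDegree := by omega
  have hitn : ∀ n u, (fun z => f.eval z)^[n] u = it f n u := fun n u => rfl
  have := hAR f.natDegree (fun z => f.eval z) hP.toFinset (fun n u => ldeg (itp f n) u)
    (fun n z => fibre (itp f n) z) hd
    (fun n z u => by rw [L4 _ (hn1 n), L1, hitn])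
    (fun u => by
      have : ldeg (itp f 0) u = 1 := by
        have h1 := L5 (itp f 0) (hn1 0) u
        rw [L2, pow_zero] at h1
        have h2 : fibre (itp f 0) u = {u} := by
          ext v
          rw [L4 _ (hn1 0), L1]
          simp [it]
        rw [h2] at h1
        simpa using h1
      exact this)
    (fun m n u => by
      show ldeg (itp f (m + n)) u = _
      rw [L3, L8 _ _ (hn1 m) (hn1 n), L1, hitn])
    (fun n z => by rw [← L2]; exact L5 _ (hn1 n) z)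
    (fun n u => L6 _ (hn1 n) u)
    (fun z hz => by
      rw [Set.Finite.mem_toFinset] at *
      exact hadm.fwd z hz)
    (fun u hu => by
      rw [Set.Finite.mem_toFinset]
      simp only [itp_one] at hu
      exact hadm.crit u ((L7 f hf1 u).1 hu))
    (by
      simp only [itp_one]
      refine L9 f hf1 _ fun u hu => ?_
      rw [Set.Finite.mem_toFinset]
      exact hadm.crit u hu)
  rcases this with ⟨h1, z₀, h2⟩ | ⟨z₀, hz₀, h⟩ | ⟨z₁, z₂, hz, h⟩
  · refine ⟨fun z hz => ?_, z₀, fun z hz hzz q hq => ?_⟩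
    · obtain ⟨n, u, hu, hu'⟩ := h1 z (by rwa [Set.Finite.mem_toFinset])
      rw [L4 _ (hn1 n), L1] at hu
      exact ⟨n, u, hu, fun h => hu' (by rwa [Set.Finite.mem_toFinset])⟩
    · obtain ⟨n, u, hu, hu', hq'⟩ := h2 z (by rwa [Set.Finite.mem_toFinset]) hzz q hq
      rw [L4 _ (hn1 n), L1] at hu
      exact ⟨n, u, hu, fun h => hu' (by rwa [Set.Finite.mem_toFinset]), hq'⟩
  · exfalso
    obtain ⟨c, hc⟩ := hPA4 f z₀ hf1 h
    have hev : ∀ z, f.eval z = c * (z - z₀) ^ f.natDegree + z₀ := by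
      intro z
      conv_lhs => rw [hc]
      simp
    refine hb ⟨1, f.natDegree, C c * X + C z₀, X - C z₀, z₀, le_rfl, hd, fun z => ?_, by simp, 1,
      le_rfl, ?_⟩
    · rw [it_one, hev]; simp
    · rw [it_one, hev, sub_self, zero_pow (by omega)]; simp
  · exfalso
    refine hc ?_
    obtain ⟨α, β, ε, hα, hε, h'⟩ := hPA3 f z₁ z₂ hd hz (fun u hu => by
      have := h u hu
      simp only [itp_one] at this
      exact this)
    exact ⟨α, β, ε, hα, hε, h'⟩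

/-- If `AQf` fails at `z₀` for `q` then all weights of `z₀` are divisible by `q`. -/
theorem dvd_of_not_aq (hL : Stmt_L) (f : ℂ[X]) (hd : 2 ≤ f.natDegree) (z₀ : ℂ)
    (hz₀ : z₀ ∈ postCrit f) (q : ℕ)
    (h : ∀ u, f.eval u = z₀ → u ≠ z₀ → q ∣ ldeg f u) :
    ∀ n u, it f n u = z₀ → u ∉ postCrit f → q ∣ ldeg (itp f n) u := by
  obtain ⟨L1, L2, L3, L4, L5, L6, L7, L8, L9⟩ := hL
  have hn1 : ∀ n, 1 ≤ (itp f n).natDegree := by
    intro n; rw [L2]; exact Nat.one_le_pow _ _ (by omega)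
  have hf1 : 1 ≤ f.natDegree := by omega
  intro n
  induction n with
  | zero =>
    intro u hu hu'
    exact absurd (by rw [show u = z₀ from hu]; exact hz₀) hu'
  | succ n ih =>
    intro u hu hu'
    by_cases h' : it f n u = z₀
    · have e : ldeg (itp f (n + 1)) u = ldeg f (it f n u) * ldeg (itp f n) u := by
        rw [Nat.add_comm n 1, L3, L8 _ _ (hn1 1) (hn1 n), L1, itp_one]
      rw [e]
      exact Dvd.dvd.mul_left (ih u h' hu') _
    · have e : ldeg (itp f (n + 1)) u = ldeg f (it f n u) * ldeg (itp f n) u := by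
        rw [Nat.add_comm n 1, L3, L8 _ _ (hn1 1) (hn1 n), L1, itp_one]
      rw [e]
      rw [it_succ] at hu
      exact Dvd.dvd.mul_right (h _ hu h') _

theorem stmt_SUF (hS2 : Stmt_S2) (hTR : Stmt_TR) (hP2 : Stmt_P2) (hTOP : Stmt_TOP)
    (hBR : Stmt_BR) (hL : Stmt_L) (hAR : Stmt_AR) (hPA3 : Stmt_PA3) (hPA4 : Stmt_PA4)
    (hA2 : Stmt_A2) (hA3 : Stmt_A3) (hA4 : Stmt_A4) (hA5 : Stmt_A5) (hCORE : Stmt_CORE)
    (hFT1 : Stmt_FT1) (hFT2 : Stmt_FT2) (hFT3 : Stmt_FT3) (hFT4 : Stmt_FT4) : Stmt_SUF := by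
  intro f t hd hP ht hb hc
  have hNE := ne_of hL hAR hPA3 hPA4 f hd hP hb hc
  by_cases hAQ : AQf f
  · exact suf_core hS2 hTR hP2 hTOP hBR hL hA2 hA3 hA4 hA5 hCORE f t hd hP ht hb hNE hAQ
  obtain ⟨L1, L2, L3, L4, L5, L6, L7, L8, L9⟩ := id hL
  have hf1 : 1 ≤ f.natDegree := by omega
  unfold AQf at hAQ
  push Not at hAQ
  obtain ⟨z₀, hz₀P, hz₀, p, hp, hco, hdiv⟩ := hAQ
  -- there is a preimage of `z₀` different from `z₀`
  obtain ⟨u₀, hu₀, hu₀z⟩ : ∃ u, f.eval u = z₀ ∧ u ≠ z₀ := by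
    by_contra hcon
    push Not at hcon
    obtain ⟨c, hc⟩ := hPA4 f z₀ hf1 hcon
    have hev : ∀ z, f.eval z = c * (z - z₀) ^ f.natDegree + z₀ := by
      intro z
      conv_lhs => rw [hc]
      simp
    refine hb ⟨1, f.natDegree, C c * X + C z₀, X - C z₀, z₀, le_rfl, hd, fun z => ?_, by simp, 1,
      le_rfl, ?_⟩
    · rw [it_one, hev]; simp
    · rw [it_one, hev, sub_self, zero_pow (by omega)]; simp
  -- the largest `q`
  let Q : ℕ → Prop := fun q => 1 ≤ q ∧ Nat.Coprime (ldeg f z₀) q ∧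
    ∀ u, f.eval u = z₀ → u ≠ z₀ → q ∣ ldeg f u
  have hQbd : ∀ q, Q q → q ≤ ldeg f u₀ := fun q hq =>
    Nat.le_of_dvd (L6 f hf1 u₀) (hq.2.2 u₀ hu₀ hu₀z)
  have hQp : Q p := ⟨hp.one_lt.le, hco, hdiv⟩
  obtain ⟨q, hQq, hmax⟩ : ∃ q, Q q ∧ ∀ q', Q q' → q' ≤ q := by
    classical
    refine ⟨Nat.findGreatest Q (ldeg f u₀), ?_, fun q' hq' => ?_⟩
    · exact Nat.findGreatest_spec (hQbd p hQp) hQp
    · exact Nat.le_findGreatest (hQbd q' hq') hq'
  have hq1 : 1 < q := lt_of_lt_of_le hp.one_lt (hmax p hQp)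
  obtain ⟨g, hgd, hg0, hsemi⟩ := hFT1 f z₀ hd hz₀ q hQq.1 hQq.2.1 hQq.2.2
  have hcov : Cover f g z₀ q := ⟨hd, hQq.1, hz₀, hg0, hQq.2.1, hgd, hsemi⟩
  obtain ⟨F1, F2, F3, F4, F5, F6, F7, F8⟩ := hFT2 f g z₀ q hcov
  have hgd2 : 2 ≤ g.natDegree := by rw [hgd]; exact hd
  have hg1 : 1 ≤ g.natDegree := by omega
  -- the base point
  obtain ⟨s, hs⟩ : ∃ s : ℂ, s ^ q = t - z₀ := IsAlgClosed.exists_pow_nat_eq _ (by omega)
  have hst : z₀ + s ^ q = t := by rw [hs]; ring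
  have hs0 : s ≠ 0 := by
    rintro rfl
    rw [zero_pow (by omega), add_zero] at hst
    exact ht (hst ▸ hz₀P)
  have hsP : s ∉ postCrit g := by
    intro h
    rcases F1 s h with h' | h'
    · exact hs0 h'
    · rw [hst] at h'; exact ht h'
  refine hFT3 f g z₀ q hcov hP t s hst ht hsP hs0 ?_
  -- `g` is nonexceptional
  have hpull : ∀ u, z₀ + u ^ q ∉ postCrit f → u ∉ postCrit g := by
    intro u hu h
    rcases F1 u h with rfl | h'
    · rw [zero_pow (by omega), add_zero] at hu; exact hu hz₀P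
    · exact hu h'
  have hqne : ∀ y : ℂ, y ≠ 0 → z₀ + y ^ q ≠ z₀ := by
    intro y hy h
    have : y ^ q = 0 := by simpa using h
    exact hy (pow_eq_zero_iff (by omega) |>.1 this)
  have hz₀e : ∀ z ∈ postCrit f, z ≠ z₀ → ∀ q : ℕ, q.Prime →
      ∃ n u, it f n u = z ∧ u ∉ postCrit f ∧ ¬ q ∣ ldeg (itp f n) u := by
    obtain ⟨z₁, hz₁⟩ := hNE.2
    have : z₀ = z₁ := by
      by_contra hne
      obtain ⟨n, u, hu, hu', hq'⟩ := hz₁ z₀ hz₀P hne p hp
      exact hq' (dvd_of_not_aq hL f hd z₀ hz₀P p hdiv n u hu hu')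
    rw [this]; exact hz₁
  have hgb : ∀ y ∈ postCrit g, y ≠ 0 → ∀ q' : ℕ, q'.Prime →
      ∃ n u, it g n u = y ∧ u ∉ postCrit g ∧ ¬ q' ∣ ldeg (itp g n) u := by
    intro y hy hy0 q' hq'
    have hyP : z₀ + y ^ q ∈ postCrit f := (F1 y hy).resolve_left hy0
    obtain ⟨n, x, hx, hxP, hxq⟩ := hz₀e _ hyP (hqne y hy0) q' hq'
    obtain ⟨u, hu, huy⟩ := F8 n x y hx
    have hu0 : u ≠ 0 := F5 n u (by rw [huy]; exact hy0)
    refine ⟨n, u, huy, hpull u (by rw [hu]; exact hxP), ?_⟩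
    rw [F4 n u hu0 (by rw [huy]; exact hy0), hu]
    exact hxq
  have hNEg : NEf g := by
    refine ⟨fun y hy => ?_, 0, hgb⟩
    by_cases hy0 : y = 0
    · subst hy0
      obtain ⟨n, x, hx, hxP⟩ := hNE.1 z₀ hz₀P
      obtain ⟨u, hu, huy⟩ := F8 n x 0 (by rw [hx, zero_pow (by omega), add_zero])
      exact ⟨n, u, huy, hpull u (by rw [hu]; exact hxP)⟩
    · obtain ⟨n, u, h1, h2, -⟩ := hgb y hy hy0 2 Nat.prime_two
      exact ⟨n, u, h1, h2⟩
  -- the arithmetic condition for `g`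
  have hAQg : AQf g := by
    intro y hy hgy q' hq' hco'
    by_contra hcon
    push Not at hcon
    by_cases hy0 : y = 0
    · subst hy0
      have h1 : Q (q * q') := by
        refine ⟨Nat.mul_pos hQq.1 hq'.pos, ?_, fun x hx hxz => ?_⟩
        · rw [F6] at hco'
          exact Nat.Coprime.mul_right hQq.2.1 hco'
        · obtain ⟨u, hu⟩ : ∃ u : ℂ, u ^ q = x - z₀ := IsAlgClosed.exists_pow_nat_eq _ (by omega)
          have hxu : z₀ + u ^ q = x := by rw [hu]; ring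
          have hu0 : u ≠ 0 := by
            rintro rfl
            rw [zero_pow (by omega), add_zero] at hxu
            exact hxz hxu.symm
          have hgu : g.eval u = 0 := by
            have := hsemi u
            rw [hxu, hx] at this
            have h' : g.eval u ^ q = 0 := by simpa using this
            exact (pow_eq_zero_iff (by omega)).1 h'
          rw [← hxu, ← F7 u hgu hu0]
          exact Nat.mul_dvd_mul_left q (hcon u hgu hu0)
      have := hmax _ h1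
      have h2 := hq'.two_le
      nlinarith
    · obtain ⟨n, u, h1, h2, h3⟩ := hgb y hy hy0 q' hq'
      exact h3 (dvd_of_not_aq hL g hgd2 y hy q' hcon n u h1 h2)
  -- `g` is not bad
  have hbg : ¬ Bad g := by
    rintro ⟨m, k, a, h, y, hm, hk, hah, hhy, r, hr, hry⟩
    obtain ⟨a', h', e, h0⟩ := hFT4 f g z₀ q hcov m k a h y hm hk hah hhy
    refine hb ⟨m, k, a', h', z₀ + y ^ q, hm, hk, e, h0, r, hr, ?_⟩
    have hs : ∀ n y, it f n (z₀ + y ^ q) = z₀ + (it g n y) ^ q := by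
      intro n
      induction n with
      | zero => intro y; rfl
      | succ n ih =>
        intro y
        rw [it_succ, ih, ← hsemi, ← it_succ]
    rw [hs, hry]
  exact suf_core hS2 hTR hP2 hTOP hBR hL hA2 hA3 hA4 hA5 hCORE g s hgd2 (F3 hP) hsP hbg hNEg
    hAQg

end PCF.H91
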