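import Pool.Agent.Work.MP_80ff4e_al.Interface4
import Pool.Agent.Work.MP_80ff4e_al_91.SUF

/-!
# MP_80ff4e_al: FN and MAIN3
-/

set_option autoImplicit false

open Polynomial

namespace PCF.H91

theorem itp_eval' (hL : Stmt_L) (f : ℂ[X]) (n : ℕ) (z : ℂ) : (itp f n).eval z = it f n z :=
  hL.1 f n z

theorem bad3_of_level (hL : Stmt_L) (f : ℂ[X]) (n p : ℕ) (hn : n ≤ 3) (hp : 2 ≤ p) (a h : ℂ[X])
    (H : itp f n = a.comp (h ^ p)) (y : ℂ) (hy : h.eval y = 0)
    (hper : ∃ r, 1 ≤ r ∧ it f r y = y) : Bad3 f := by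
  refine ⟨p, (itp f (3 - n)).comp a, h, y, hp, fun z => ?_, hy, hper⟩
  have e : it f 3 z = it f (3 - n) (it f n z) := by
    rw [← it_add]; congr 1; omega
  rw [e, eval_comp, itp_eval' hL, ← itp_eval' hL f n, H]
  simp

section home

variable {f α γ X₁ Y : ℂ[X]} {p : ℕ}

theorem home_eval (H : Home f p α γ X₁ Y) (w : ℂ) :
    f.eval w = α.eval ((γ.eval w) ^ p) := by
  conv_lhs => rw [H.f_eq]
  simp

theorem home_semi1 (H : Home f p α γ X₁ Y) (z : ℂ) :
    ((γ ^ p).comp α).eval ((γ.eval z) ^ p) = (γ.eval (f.eval z)) ^ p := by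
  have : f.eval z = α.eval ((γ.eval z) ^ p) := by
    conv_lhs => rw [H.f_eq]
    simp
  rw [this]; simp

theorem home_semi2 (H : Home f p α γ X₁ Y) (w : ℂ) :
    f.eval (α.eval w) = α.eval (((γ ^ p).comp α).eval w) := by
  conv_lhs => rw [H.f_eq]
  simp

theorem home_it1 (H : Home f p α γ X₁ Y) (n : ℕ) (z : ℂ) :
    it ((γ ^ p).comp α) n ((γ.eval z) ^ p) = (γ.eval (it f n z)) ^ p := by
  induction n with
  | zero => rfl
  | succ n ih => rw [it_succ, ih, home_semi1 H, ← it_succ]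

theorem home_it2 (H : Home f p α γ X₁ Y) (n : ℕ) (w : ℂ) :
    it f n (α.eval w) = α.eval (it ((γ ^ p).comp α) n w) := by
  induction n with
  | zero => rfl
  | succ n ih => rw [it_succ, ih, home_semi2 H, ← it_succ]

theorem home_deg (H : Home f p α γ X₁ Y) : ((γ ^ p).comp α).natDegree = f.natDegree := by
  conv_rhs => rw [H.f_eq]
  rw [natDegree_comp, natDegree_comp, mul_comm]

theorem home_zero (hL : Stmt_L) (hp : 2 ≤ p) (H : Home f p α γ X₁ Y) (r : ℕ) (hr : 1 ≤ r)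
    (h0 : it ((γ ^ p).comp α) r 0 = 0) : Bad3 f := by
  have h1 : it f r (α.eval 0) = α.eval 0 := by rw [home_it2 H, h0]
  have h2 : γ.eval (it f (r - 1) (α.eval 0)) = 0 := by
    have h3 : (γ.eval (it f (r - 1) (α.eval 0))) ^ p = 0 := by
      rw [home_it2 H]
      have h4 : it ((γ ^ p).comp α) r 0 = 0 := h0
      obtain ⟨s, rfl⟩ : ∃ s, r = s + 1 := ⟨r - 1, by omega⟩
      rw [it_succ] at h4
      simpa using h4
    exact (pow_eq_zero_iff (by omega)).1 h3
  refine bad3_of_level hL f 1 p (by norm_num) hp α γ ?_ _ h2 ⟨r, hr, ?_⟩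
  · rw [itp_one]; exact H.f_eq
  · rw [← it_add, Nat.add_comm, it_add, h1]

theorem ldeg_pow_dvd (q : ℂ[X]) (hp : 1 ≤ p) (z : ℂ) (h : q.eval z = 0) : p ∣ ldeg (q ^ p) z := by
  have h0 : (q ^ p).eval z = 0 := by rw [eval_pow, h, zero_pow (by omega)]
  unfold ldeg
  rw [h0, C_0, sub_zero, ← count_roots, roots_pow, Multiset.count_nsmul]
  exact Dvd.intro _ rfl

theorem step_or (hL : Stmt_L) (hSG : Stmt_SG) (hPW : Stmt_PW) (hp : p.Prime)
    (hd : 2 ≤ f.natDegree) (H : Home f p α γ X₁ Y) (y : ℂ) (hη : Y.eval ((γ.eval y) ^ p) = 0)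
    (hper : ∃ r, 1 ≤ r ∧ it f r y = y) (h0 : ∀ r, 1 ≤ r → it ((γ ^ p).comp α) r 0 ≠ 0)
    (j : ℕ) (hj1 : 1 ≤ j) (hj2 : j ≤ 2) (b Yj Xj D Z A C' : ℂ[X]) (c : ℂ)
    (S : Step f p α γ X₁ Y j b Yj Xj D Z A C' c) :
    Bad3 f ∨ ((∃ z, z ≠ 0 ∧ D.eval z = D.eval 0) ∧ p = 2 ∧ ∃ θ, Portrait b D θ) := by
  classical
  obtain ⟨L1, L2, L3, L4, L5, L6, L7, L8, L9⟩ := id hL
  have hp0 : p ≠ 0 := hp.ne_zero
  have hY0 : Y.eval 0 = 0 := by
    have := congrArg (fun q : ℂ[X] => q.eval 0) H.XY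
    simp only [eval_pow, eval_comp, eval_X, H.X0, zero_pow hp0] at this
    exact this.symm
  have hYdeg : Y.natDegree = X₁.natDegree := by
    have := congrArg natDegree H.XY
    rw [natDegree_pow, natDegree_comp, natDegree_X_pow, mul_comm] at this
    exact (Nat.eq_of_mul_eq_mul_right hp.pos this).symm
  have hpY : ¬ p ∣ Y.natDegree := by rw [hYdeg]; exact H.ndvd
  have hYpos : Y.natDegree ≠ 0 := fun h => hpY (by rw [h]; exact dvd_zero p)
  have hYD : Y.natDegree = D.natDegree * Yj.natDegree := by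
    conv_lhs => rw [S.Y_eq]
    rw [natDegree_comp]
  have hDpos : 1 ≤ D.natDegree := by
    rcases Nat.eq_zero_or_pos D.natDegree with h | h
    · rw [h, zero_mul] at hYD; exact absurd hYD hYpos
    · exact h
  have hYjpos : 1 ≤ Yj.natDegree := by
    rcases Nat.eq_zero_or_pos Yj.natDegree with h | h
    · rw [h, mul_zero] at hYD; exact absurd hYD hYpos
    · exact h
  set g := (γ ^ p).comp α with hg
  have hgd : g.natDegree = f.natDegree := home_deg H
  have hGdeg : (itp g j).natDegree = f.natDegree ^ j := by rw [L2, hgd]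
  have hbY : f.natDegree ^ j = b.natDegree * Yj.natDegree := by
    rw [← hGdeg, S.g_eq, natDegree_comp]
  have hbpos : 1 ≤ b.natDegree := by
    rcases Nat.eq_zero_or_pos b.natDegree with h | h
    · rw [h, zero_mul] at hbY
      have : 0 < f.natDegree ^ j := Nat.pow_pos (by omega)
      omega
    · exact h
  by_cases hη1 : Yj.eval ((γ.eval y) ^ p) = 0
  · left
    have e1 := congrArg (fun q : ℂ[X] => q.eval (γ.eval y)) S.YX
    simp only [eval_comp, eval_pow, eval_X, eval_mul, eval_C, hη1] at e1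
    have e2 : Xj.eval (γ.eval y) = 0 := by
      rcases mul_eq_zero.1 e1.symm with h | h
      · exact absurd h S.c0
      · exact (pow_eq_zero_iff hp0).1 h
    refine bad3_of_level hL f (j + 1) p (by omega) hp.two_le
      ((α.comp b).comp (C c * X)) (Xj.comp γ) ?_ y (by rw [eval_comp, e2]) hper
    refine Polynomial.funext fun z => ?_
    rw [L1, it_succ]
    rw [home_eval H, ← home_it1 H, ← L1, ← hg, S.g_eq]
    have h2 := congrArg (fun q : ℂ[X] => q.eval (γ.eval z)) S.YX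
    simp only [eval_comp, eval_pow, eval_X, eval_mul, eval_C] at h2
    simp only [eval_comp, eval_pow, eval_X, eval_mul, eval_C]
    rw [h2]
  · right
    have hD0 : D.eval 0 = 0 := by
      have := hY0
      rw [S.Y_eq, eval_comp, S.Yj0] at this
      exact this
    have hsec : ∃ z, z ≠ 0 ∧ D.eval z = D.eval 0 := by
      refine ⟨_, hη1, ?_⟩
      rw [hD0, ← hη]
      conv_rhs => rw [S.Y_eq]
      rw [eval_comp]
    refine ⟨hsec, ?_⟩
    have hpD : ¬ p ∣ D.natDegree := fun h => hpY (by rw [hYD]; exact Dvd.dvd.mul_right h _)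
    have hpYj : ¬ p ∣ Yj.natDegree := fun h => hpY (by rw [hYD]; exact Dvd.dvd.mul_left h _)
    have hpd : p ∣ f.natDegree := by
      rw [H.f_eq, natDegree_comp, natDegree_pow]
      exact Dvd.dvd.mul_left (Dvd.intro _ rfl) _
    have hpb : p ∣ b.natDegree := by
      have : p ∣ b.natDegree * Yj.natDegree := by
        rw [← hbY]; exact dvd_pow hpd (by omega)
      exact (hp.dvd_mul.1 this).resolve_right hpYj
    have hcop : Nat.Coprime D.natDegree b.natDegree := by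
      have h1 := Nat.coprime_div_gcd_div_gcd (m := Y.natDegree) (n := f.natDegree ^ j)
        (by rw [← S.deg]; exact hYjpos)
      rw [← S.deg] at h1
      rwa [hYD, hbY, Nat.mul_div_cancel _ hYjpos, Nat.mul_div_cancel _ hYjpos] at h1
    have hother : ∀ z, z ≠ 0 → D.eval z = D.eval 0 → p ∣ ldeg D z := by
      intro z hz hDz
      obtain ⟨v, hv⟩ : ∃ v : ℂ, v ^ p = z / c := IsAlgClosed.exists_pow_nat_eq _ hp.pos
      have hcv : c * v ^ p = z := by
        have hc0 := S.c0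
        rw [hv]; field_simp
      have hv0 : v ≠ 0 := by
        rintro rfl
        rw [zero_pow hp0, mul_zero] at hcv
        exact hz hcv.symm
      have hdeg1 : (C c * X ^ p : ℂ[X]).natDegree = p := natDegree_C_mul_X_pow p c S.c0
      have e1 : ldeg (D.comp (C c * X ^ p)) v = ldeg D z * ldeg (C c * X ^ p) v := by
        rw [L8 D _ hDpos (by rw [hdeg1]; exact hp.one_lt.le)]
        congr 2
        simp [hcv]
      have e2 : ldeg (C c * X ^ p : ℂ[X]) v = 1 := by
        have h1 := L6 (C c * X ^ p : ℂ[X]) (by rw [hdeg1]; exact hp.one_lt.le) v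
        have h2 := L7 (C c * X ^ p : ℂ[X]) (by rw [hdeg1]; exact hp.one_lt.le) v
        have h3 : ¬ 2 ≤ ldeg (C c * X ^ p : ℂ[X]) v := by
          rw [h2]
          simp only [derivative_C_mul_X_pow, eval_mul, eval_C, eval_pow, eval_X]
          refine mul_ne_zero (mul_ne_zero S.c0 (by exact_mod_cast hp0)) (pow_ne_zero _ hv0)
        omega
      rw [S.DZ, e2, mul_one] at e1
      rw [← e1]
      refine ldeg_pow_dvd Z hp.one_lt.le v ?_
      have e3 := congrArg (fun q : ℂ[X] => q.eval v) S.DZ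
      simp only [eval_comp, eval_pow, eval_X, eval_mul, eval_C, hcv, hDz, hD0] at e3
      exact (pow_eq_zero_iff hp0).1 e3.symm
    have hD0p : ¬ p ∣ ldeg D 0 := by
      intro h
      apply hpD
      rw [← L5 D hDpos (D.eval 0)]
      refine Finset.dvd_sum fun u hu => ?_
      rw [L4 D hDpos] at hu
      by_cases hu0 : u = 0
      · rw [hu0]; exact h
      · exact hother u hu0 hu
    rcases hSG p A b C' D hp S.sq (by rw [S.degA]; exact hDpos) hbpos S.degA S.degC S.fin hcop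
      hpb hD0p hother hsec with h | h
    · exfalso
      have hGpos : 1 ≤ (itp g j).natDegree := by
        rw [hGdeg]; exact Nat.pow_pos (by omega)
      have h1 : ∀ z, (itp g j).eval z = (itp g j).eval 0 → p ∣ ldeg (itp g j) z := by
        intro z hz
        rw [S.g_eq] at hz ⊢
        rw [eval_comp, eval_comp, S.Yj0] at hz
        rw [L8 b Yj hbpos hYjpos]
        exact Dvd.dvd.mul_right (h _ hz) _
      have h2 : ∀ z, (itp g j).eval z = 0 → p ∣ ldeg (itp g j) z := by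
        intro z hz
        have e : itp g j = g.comp (itp g (j - 1)) := by
          have := L3 g 1 (j - 1)
          rw [itp_one] at this
          rw [← this]; congr 1; omega
        have hpos' : 1 ≤ (itp g (j - 1)).natDegree := by
          rw [L2, hgd]; exact Nat.pow_pos (by omega)
        rw [e] at hz ⊢
        rw [L8 g _ (by omega) hpos']
        refine Dvd.dvd.mul_right ?_ _
        rw [eval_comp] at hz
        have e2 : g = (γ.comp α) ^ p := by rw [hg, pow_comp]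
        rw [e2]
        refine ldeg_pow_dvd _ hp.one_lt.le _ ?_
        rw [e2, eval_pow] at hz
        exact (pow_eq_zero_iff hp0).1 hz
      have h3 := hPW p (itp g j) hp.two_le hGpos _ _ h1 h2
      rw [L1] at h3
      exact h0 j hj1 h3
    · exact h

end home

theorem stmt_FN (hL : Stmt_L) (hPA3 : Stmt_PA3) (hRD : Stmt_RD) (hHM : Stmt_HM)
    (hJS : Stmt_JS) (hJW : Stmt_JW) (hSG : Stmt_SG) (hPW : Stmt_PW) (hCC : Stmt_CC)
    (hCT : Stmt_CT) : Stmt_FN := by
  intro f P hA hch hb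
  obtain ⟨L1, L2, L3, L4, L5, L6, L7, L8, L9⟩ := id hL
  have hd := hA.deg
  obtain ⟨m₀, k, a₀, h₀, y₀, hm, hk, hah, hhy, r, hr, hry⟩ := hb
  obtain ⟨p, hp, hpk⟩ := Nat.exists_prime_and_dvd (by omega : k ≠ 1)
  obtain ⟨k', rfl⟩ := hpk
  have hp0 : p ≠ 0 := hp.ne_zero
  have hB : BadP f p m₀ h₀ y₀ := by
    refine ⟨⟨a₀.comp (X ^ k'), ?_⟩, hhy, r, hr, hry⟩
    refine Polynomial.funext fun z => ?_
    rw [L1, hah]
    simp [pow_mul]
  obtain ⟨m, h, y, hB', hv⟩ := hRD f P hA p m₀ h₀ y₀ hp hB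
  obtain ⟨α, γ, X₁, Y, H, hh⟩ := hHM f P hA p m h y hp hB' hv
  obtain ⟨⟨a, ha⟩, hhy', hper⟩ := hB'
  rw [hh] at ha hhy'
  by_cases hz : ∃ r, 1 ≤ r ∧ it ((γ ^ p).comp α) r 0 = 0
  · obtain ⟨r, hr, h0⟩ := hz
    exact home_zero hL hp.two_le H r hr h0
  have h0 : ∀ r, 1 ≤ r → it ((γ ^ p).comp α) r 0 ≠ 0 := fun r hr h => hz ⟨r, hr, h⟩
  have hη : Y.eval ((γ.eval y) ^ p) = 0 := by
    have := congrArg (fun q : ℂ[X] => q.eval (γ.eval y)) H.XY
    simp only [eval_pow, eval_comp, eval_X] at this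
    rw [← this]
    rw [eval_comp] at hhy'
    rw [hhy', zero_pow hp0]
  obtain ⟨b₁, Y₁, X₁', D₁, Z₁, A₁, C₁, c₁, S₁⟩ := hJS f P hA p m a α γ X₁ Y hp H ha 1 le_rfl
  obtain ⟨b₂, Y₂, X₂', D₂, Z₂, A₂, C₂, c₂, S₂⟩ := hJS f P hA p m a α γ X₁ Y hp H ha 2 (by norm_num)
  rcases step_or hL hSG hPW hp hd H y hη hper h0 1 le_rfl (by norm_num) _ _ _ _ _ _ _ _ S₁ with
    h | ⟨-, hp2, θ₁, hθ₁⟩
  · exact h
  rcases step_or hL hSG hPW hp hd H y hη hper h0 2 (by norm_num) le_rfl _ _ _ _ _ _ _ _ S₂ with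
    h | ⟨hsec, -, θ₂, hθ₂⟩
  · exact h
  exfalso
  subst hp2
  obtain ⟨W, hW1, hW2, hW0, hW3⟩ := hJW f P hA 2 m a α γ X₁ Y hp H ha _ _ _ _ _ _ _ _ _ _ _ _ _
    _ _ _ S₁ S₂
  have hYdeg : Y.natDegree = X₁.natDegree := by
    have := congrArg natDegree H.XY
    rw [natDegree_pow, natDegree_comp, natDegree_X_pow, mul_comm] at this
    exact (Nat.eq_of_mul_eq_mul_right hp.pos this).symm
  have hpY : ¬ 2 ∣ Y.natDegree := by rw [hYdeg]; exact H.ndvd
  have hY1 : Odd Y₁.natDegree := by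
    rw [← Nat.not_even_iff_odd, even_iff_two_dvd]
    intro h
    apply hpY
    rw [S₁.Y_eq, natDegree_comp]
    exact Dvd.dvd.mul_left h _
  have hWo : Odd W.natDegree := by
    rw [← Nat.not_even_iff_odd, even_iff_two_dvd]
    intro h
    apply hpY
    rw [S₁.Y_eq, hW2, natDegree_comp, natDegree_comp]
    exact Dvd.dvd.mul_right (Dvd.dvd.mul_left h _) _
  set g := (γ ^ 2).comp α with hg
  have hgd : g.natDegree = f.natDegree := home_deg H
  have hgz : ∀ z, g.eval z = 0 → 2 ∣ ldeg g z := by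
    intro z hz
    have e2 : g = (γ.comp α) ^ 2 := by rw [hg, pow_comp]
    rw [e2]
    refine ldeg_pow_dvd _ (by norm_num) _ ?_
    rw [e2, eval_pow] at hz
    exact (pow_eq_zero_iff hp0).1 hz
  have hg1 := S₁.g_eq
  rw [itp_one] at hg1
  rw [hW2] at hθ₁
  obtain ⟨β, hβ, hport⟩ := hCC g b₁ b₂ Y₁ W D₂ θ₁ θ₂ (by omega) hg1 hW3 S₁.Yj0 hW0 hY1 hWo hgz
    (h0 1 le_rfl) (h0 2 (by norm_num)) hθ₁ hθ₂ hsec
  have hcg : Cheb g := by
    obtain ⟨α', β', ε, h1, h2, h3⟩ := hPA3 g 0 β (by omega) hβ.symm hport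
    exact ⟨α', β', ε, h1, h2, h3⟩
  have hdeg : 1 ≤ α.natDegree ∧ 1 ≤ (γ ^ 2).natDegree := by
    have := H.f_eq
    have h1 : f.natDegree = α.natDegree * (γ ^ 2).natDegree := by
      conv_lhs => rw [this]
      rw [natDegree_comp]
    constructor
    · rcases Nat.eq_zero_or_pos α.natDegree with h | h
      · rw [h, zero_mul] at h1; omega
      · exact h
    · rcases Nat.eq_zero_or_pos (γ ^ 2).natDegree with h | h
      · rw [h, mul_zero] at h1; omega
      · exact h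
  have := hCT α (γ ^ 2) hdeg.1 hdeg.2 hcg
  rw [← H.f_eq] at this
  exact hch this

theorem stmt_MAIN3 (hM : Stmt_MAIN) (hF : Stmt_FN) : Stmt_MAIN3 := by
  intro f t hd hP ht
  rw [hM f t hd hP ht]
  constructor
  · rintro ⟨h1, h2⟩
    refine ⟨h1, fun h3 => h2 ?_⟩
    obtain ⟨k, a, h, y, hk, hah, hy, hper⟩ := h3
    exact ⟨3, k, a, h, y, by norm_num, hk, hah, hy, hper⟩
  · rintro ⟨h1, h2⟩
    exact ⟨h1, fun h3 => h2 (hF f _ (adm_postCrit hd hP) h1 h3)⟩

end PCF.H91
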