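import Pool.Agent.Work.MP_80ff4e_al_91.SUF
import Pool.Agent.Work.MP_80ff4e_al_91.AR
import Pool.Agent.Work.MP_80ff4e_al_56.T
import Pool.Agent.Work.MP_80ff4e_al_56.PA
import Pool.Agent.Work.MP_80ff4e_al_56.A3main
import Pool.Agent.Work.MP_80ff4e_al_helper10.NEC
import Pool.Agent.Work.MP_80ff4e_al_helper10.FT1
import Pool.Agent.Work.MP_80ff4e_al_helper10.FT2
import Pool.Agent.Work.MP_80ff4e_al_helper10.FT3
import Pool.Agent.Work.MP_80ff4e_al_helper10.FT4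
import Pool.Agent.Work.MP_80ff4e_al_helper21.C8b
import Pool.Agent.Work.MP_80ff4e_al_helper21.C10
import Pool.Agent.Work.MP_80ff4e_al_helper60.S2
import Pool.Agent.Work.MP_80ff4e_al_helper3.P2
import Pool.Agent.Work.MP_80ff4e_al_helper39.C11
import Pool.Agent.Work.MP_80ff4e_al_helper39.W
import Pool.Agent.Work.MP_80ff4e_al_helper41.C2
import Pool.Agent.Work.MP_80ff4e_al_helper41.C5
import Pool.Agent.Work.MP_80ff4e_al_helper41.BR
import Pool.Agent.Work.MP_80ff4e_al_helper52.C0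
import Pool.Agent.Work.MP_80ff4e_al_helper52.C7
import Pool.Agent.Work.MP_80ff4e_al_helper72.A2
import Pool.Agent.Work.MP_80ff4e_al_helper72.A4
import Pool.Agent.Work.MP_80ff4e_al_helper72.A5
import Pool.Agent.Work.MP_80ff4e_al_helper72.CH
import Pool.Agent.Work.MP_80ff4e_al_helper80.TOPFinal
import Pool.Agent.Work.MP_80ff4e_al_helper82.C3
import Pool.Agent.Work.MP_80ff4e_al_helper82.C4

/-!
# MP_80ff4e_al: the main theorem
-/

set_option autoImplicit false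

open Polynomial unitInterval

namespace PCF.H91

theorem fin_C3 : Stmt_C3 := stmt_C3 stmt_C2
theorem fin_C4 : Stmt_C4 := stmt_C4 fin_C3
theorem fin_C5 : Stmt_C5 := stmt_C5 fin_C3 fin_C4
theorem fin_C7 : Stmt_C7 := stmt_C7 fin_C3 fin_C5
theorem fin_C8a : Stmt_C8a := stmt_C8a stmt_C0 fin_C7
theorem fin_C8b : Stmt_C8b := stmt_C8b stmt_C0 fin_C3 fin_C5 fin_C7
theorem fin_C9 : Stmt_C9 := stmt_C9 stmt_C0 fin_C3 fin_C5
theorem fin_C10 : Stmt_C10 := stmt_C10 stmt_C0 fin_C3 fin_C5 fin_C8a fin_C8b fin_C9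
theorem fin_CORE : Stmt_CORE := stmt_CORE stmt_C0 (stmt_C11 fin_C10)

theorem fin_NEC : Stmt_NEC := NEC.stmt_NEC stmt_TR stmt_L (SM.stmt_SM stmt_TR) stmt_LC

theorem fin_CH : Stmt_CH := stmt_CH stmt_TOP BR.stmt_BR

theorem fin_SUF : Stmt_SUF :=
  stmt_SUF stmt_S2 stmt_TR (stmt_P2 stmt_PA2) stmt_TOP BR.stmt_BR stmt_L stmt_AR stmt_PA3
    stmt_PA4 stmt_A2 stmt_A3 stmt_A4 stmt_A5 fin_CORE FT.stmt_FT1 (FT.stmt_FT2 stmt_L)
    (FT.stmt_FT3 stmt_TR stmt_L stmt_W) (FT.stmt_FT4 stmt_L stmt_PA1)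

theorem main : Stmt_MAIN := stmt_MAIN fin_NEC fin_CH fin_SUF

end PCF.H91
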