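import Pool.Agent.Work.MP_80ff4e_al.Interface4
import Pool.Agent.Work.MP_80ff4e_al_helper3.Rel

/-!
# MP_80ff4e_al: GI
-/

set_option autoImplicit false

open Polynomial unitInterval Topology Filter

namespace PCF.H91

/-- A right factor of an iterate gives a relation that is invariant under transport. -/
theorem inv_of_factor {f : ℂ[X]} {P : Set ℂ} (hA : Adm f P) {N : ℕ} {A E : ℂ[X]}
    (h : itp f N = A.comp E) {a b : ℂ} (γ : Path a b) (hγ : Av P γ) {x x' y y' : ℂ}
    (hx : Tr f N γ x x') (hy : Tr f N γ y y') (hE : E.eval x = E.eval y) :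
    E.eval x' = E.eval y' := by
  obtain ⟨Γ, hΓ⟩ := hx
  obtain ⟨Δ, hΔ⟩ := hy
  have hAE : ∀ z, A.eval (E.eval z) = it f N z := by
    intro z; rw [← itp_eval, h, eval_comp]
  let S : Set I := {s | E.eval (Γ s) = E.eval (Δ s)}
  have hcl : IsClosed S := isClosed_eq (E.continuous.comp Γ.continuous)
    (E.continuous.comp Δ.continuous)
  have hop : IsOpen S := by
    rw [isOpen_iff_mem_nhds]
    intro s hs
    have hs' : E.eval (Γ s) = E.eval (Δ s) := hs
    have hne : A.derivative.eval (E.eval (Γ s)) ≠ 0 := by
      intro h0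
      have h1 : (itp f N).derivative.eval (Γ s) = 0 := by
        rw [h, derivative_comp, eval_mul, eval_comp, h0, mul_zero]
      have h2 := hA.it_crit N h1
      rw [hΓ s] at h2
      exact hγ s h2
    have hinv := (A.hasStrictDerivAt (E.eval (Γ s))).eventually_left_inverse hne
    have h1 : Tendsto (fun r : I => E.eval (Γ r)) (𝓝 s) (𝓝 (E.eval (Γ s))) :=
      (E.continuous.comp Γ.continuous).tendsto s
    have h2 : Tendsto (fun r : I => E.eval (Δ r)) (𝓝 s) (𝓝 (E.eval (Γ s))) := by
      rw [hs']; exact (E.continuous.comp Δ.continuous).tendsto s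
    filter_upwards [h1.eventually hinv, h2.eventually hinv] with r hr1 hr2
    show E.eval (Γ r) = E.eval (Δ r)
    rw [← hr1, ← hr2, hAE, hAE, hΓ, hΔ]
  have huniv : S = Set.univ := by
    rcases isClopen_iff.1 ⟨hcl, hop⟩ with h0 | h0
    · exfalso
      have : (0 : I) ∈ S := by
        show E.eval (Γ 0) = E.eval (Δ 0)
        rw [Γ.source, Δ.source, hE]
      rw [h0] at this
      exact this
    · exact h0
  have h1 : (1 : I) ∈ S := by rw [huniv]; trivial
  have h2 : E.eval (Γ 1) = E.eval (Δ 1) := h1
  rwa [Γ.target, Δ.target] at h2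

theorem card_fibre_of_factor (hL : Stmt_L) {f : ℂ[X]} {P : Set ℂ} (hA : Adm f P) {N : ℕ}
    {A E : ℂ[X]} (h : itp f N = A.comp E) {x : ℂ} (hx : it f N x ∉ P) :
    (fibre E (E.eval x)).card = E.natDegree := by
  obtain ⟨L1, L2, L3, L4, L5, L6, L7, L8, L9⟩ := hL
  have hd := hA.deg
  have hdeg : f.natDegree ^ N = A.natDegree * E.natDegree := by
    rw [← L2, h, natDegree_comp]
  have hpos : 0 < f.natDegree ^ N := Nat.pow_pos (by omega)
  have hEpos : 1 ≤ E.natDegree := by
    rcases Nat.eq_zero_or_pos E.natDegree with h0 | h0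
    · rw [h0, mul_zero] at hdeg; omega
    · exact h0
  have hAE : ∀ z, A.eval (E.eval z) = it f N z := by
    intro z; rw [← L1, h, eval_comp]
  rw [← L5 E hEpos (E.eval x), Finset.card_eq_sum_ones]
  refine Finset.sum_congr rfl fun u hu => ?_
  rw [L4 E hEpos] at hu
  have h1 := L6 E hEpos u
  have h2 : ¬ 2 ≤ ldeg E u := by
    rw [L7 E hEpos]
    intro h0
    have h3 : (itp f N).derivative.eval u = 0 := by
      rw [h, derivative_comp, eval_mul, h0, zero_mul]
    have h4 := hA.it_crit N h3
    rw [← hAE, hu, hAE] at h4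
    exact hx h4
  omega

theorem stmt_GI (hL : Stmt_L) : Stmt_GI := by
  classical
  intro f P hA N a b c D G h1 h2 hcop
  obtain ⟨L1, L2, L3, L4, L5, L6, L7, L8, L9⟩ := id hL
  have hd := hA.deg
  have hpos : 0 < f.natDegree ^ N := Nat.pow_pos (by omega)
  have hdeg1 : f.natDegree ^ N = a.natDegree * (b.natDegree * G.natDegree) := by
    rw [← L2, h1, natDegree_comp, natDegree_comp]
  have hdeg2 : f.natDegree ^ N = c.natDegree * (D.natDegree * G.natDegree) := by
    rw [← L2, h2, natDegree_comp, natDegree_comp]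
  have hGpos : 1 ≤ G.natDegree := by
    rcases Nat.eq_zero_or_pos G.natDegree with h0 | h0
    · rw [h0, mul_zero, mul_zero] at hdeg1; omega
    · exact h0
  have hbpos : 1 ≤ b.natDegree := by
    rcases Nat.eq_zero_or_pos b.natDegree with h0 | h0
    · rw [h0, zero_mul, mul_zero] at hdeg1; omega
    · exact h0
  have hDpos : 1 ≤ D.natDegree := by
    rcases Nat.eq_zero_or_pos D.natDegree with h0 | h0
    · rw [h0, zero_mul, mul_zero] at hdeg2; omega
    · exact h0
  have hFpos : 1 ≤ (itp f N).natDegree := by rw [L2]; exact hpos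
  -- the key statement
  have key : ∀ x, it f N x ∉ P → ∀ x', (b.comp G).eval x = (b.comp G).eval x' →
      (D.comp G).eval x = (D.comp G).eval x' → G.eval x = G.eval x' := by
    intro x hx x' hb hD
    set t := it f N x with ht
    have hval1 : ∀ z, a.eval ((b.comp G).eval z) = it f N z := by
      intro z
      have e := L1 f N z
      rw [h1, eval_comp] at e
      exact e
    -- the setoid
    let s : Setoid ℂ :=
      { r := fun u v => u = v ∨ (it f N u = t ∧ it f N v = t ∧
          (b.comp G).eval u = (b.comp G).eval v ∧ (D.comp G).eval u = (D.comp G).eval v)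
        iseqv :=
          { refl := fun _ => Or.inl rfl
            symm := by
              rintro u v (h | ⟨h1, h2, h3, h4⟩)
              · exact Or.inl h.symm
              · exact Or.inr ⟨h2, h1, h3.symm, h4.symm⟩
            trans := by
              rintro u v w (rfl | ⟨h1, h2, h3, h4⟩) h'
              · exact h'
              · rcases h' with rfl | ⟨h1', h2', h3', h4'⟩
                · exact Or.inr ⟨h1, h2, h3, h4⟩
                · exact Or.inr ⟨h1, h2', h3.trans h3', h4.trans h4'⟩ } }
    have hs : P1.Inv f P t N s := by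
      rintro γ hγ u u' v v' h hu hv
      have hends1 := tr_ends hu
      have hends2 := tr_ends hv
      rcases h with rfl | ⟨e1, e2, e3, e4⟩
      · left; exact tr_unique hA hγ hu hv
      · right
        exact ⟨hends1.2, hends2.2, inv_of_factor hA h1 γ hγ hu hv e3,
          inv_of_factor hA h2 γ hγ hu hv e4⟩
    let Cl : ℂ → Finset ℂ := fun u => (fibre (itp f N) t).filter fun v =>
      (b.comp G).eval u = (b.comp G).eval v ∧ (D.comp G).eval u = (D.comp G).eval v
    have hmemF : ∀ v, v ∈ fibre (itp f N) t ↔ it f N v = t := by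
      intro v; rw [L4 _ hFpos, L1]
    have hCl : ∀ u, it f N u = t → Cl u = P1.B f P t N s u := by
      intro u hu
      ext v
      rw [P1.mem_B hA]
      constructor
      · intro hv
        obtain ⟨hv1, hv2, hv3⟩ := Finset.mem_filter.1 hv
        exact (P1.rel_base hx hs hu ((hmemF v).1 hv1)).2
          (Or.inr ⟨hu, (hmemF v).1 hv1, hv2, hv3⟩)
      · intro hv
        have hv1 : it f N v = t := by rw [← hv.eq, hu]
        rcases (P1.rel_base hx hs hu hv1).1 hv with h | ⟨-, -, h3, h4⟩
        · subst h
          exact Finset.mem_filter.2 ⟨(hmemF _).2 hu, rfl, rfl⟩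
        · exact Finset.mem_filter.2 ⟨(hmemF _).2 hv1, h3, h4⟩
    have hcard : ∀ u, it f N u = t → (Cl u).card = (Cl x).card := by
      intro u hu
      rw [hCl u hu, hCl x rfl]
      exact P1.card_eq hA (by rw [hu]; exact hx) hx
    have hself : ∀ u, it f N u = t → u ∈ Cl u := fun u hu =>
      Finset.mem_filter.2 ⟨(hmemF _).2 hu, rfl, rfl⟩
    -- divisibility
    have hdvd : ∀ E : ℂ[X], (∀ u v, (b.comp G).eval u = (b.comp G).eval v →
        (D.comp G).eval u = (D.comp G).eval v → E.eval u = E.eval v) →
        (∀ v, E.eval v = E.eval x → it f N v = t) → 1 ≤ E.natDegree →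
        (fibre E (E.eval x)).card = E.natDegree → (Cl x).card ∣ E.natDegree := by
      intro E hE1 hE2 hE3 hE4
      have e := Finset.card_eq_sum_card_image Cl (fibre E (E.eval x))
      rw [← hE4, e]
      refine Finset.dvd_sum fun B hB => ?_
      obtain ⟨w, hw, rfl⟩ := Finset.mem_image.1 hB
      rw [L4 E hE3] at hw
      have hwt := hE2 w hw
      have : (fibre E (E.eval x)).filter (fun v => Cl v = Cl w) = Cl w := by
        ext v
        rw [Finset.mem_filter, L4 E hE3]
        constructor
        · rintro ⟨hv, hvw⟩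
          rw [← hvw]; exact hself v (hE2 v hv)
        · intro hv
          obtain ⟨hv1, hv2, hv3⟩ := Finset.mem_filter.1 hv
          refine ⟨(hE1 w v hv2 hv3).symm.trans hw, ?_⟩
          ext u
          simp only [Cl, Finset.mem_filter, hv2, hv3]
      rw [this, hcard w hwt]
    have hd1 : (Cl x).card ∣ (b.comp G).natDegree := by
      refine hdvd _ (fun u v h _ => h) (fun v hv => ?_)
        (by rw [natDegree_comp]; exact Nat.mul_pos hbpos hGpos)
        (card_fibre_of_factor hL hA h1 hx)
      rw [← hval1, hv, hval1]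
    have hd2 : (Cl x).card ∣ (D.comp G).natDegree := by
      have hval2 : ∀ z, c.eval ((D.comp G).eval z) = it f N z := by
        intro z
        have e := L1 f N z
        rw [h2, eval_comp] at e
        exact e
      refine hdvd _ (fun u v _ h => h) (fun v hv => ?_)
        (by rw [natDegree_comp]; exact Nat.mul_pos hDpos hGpos)
        (card_fibre_of_factor hL hA h2 hx)
      rw [← hval2, hv, hval2]
    have hd3 : (Cl x).card ∣ G.natDegree := by
      have h3 := Nat.dvd_gcd hd1 hd2
      rw [natDegree_comp, natDegree_comp, Nat.gcd_mul_right, hcop, one_mul] at h3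
      exact h3
    have h3 : itp f N = (a.comp b).comp G := by rw [h1, comp_assoc]
    have hG := card_fibre_of_factor hL hA h3 hx
    have hsub : fibre G (G.eval x) ⊆ Cl x := by
      intro v hv
      rw [L4 G hGpos] at hv
      have e1 : (b.comp G).eval x = (b.comp G).eval v := by rw [eval_comp, eval_comp, hv]
      refine Finset.mem_filter.2 ⟨?_, e1, by rw [eval_comp, eval_comp, hv]⟩
      rw [hmemF, ← hval1, ← e1, hval1]
    have heq : fibre G (G.eval x) = Cl x := by
      refine Finset.eq_of_subset_of_card_le hsub ?_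
      rw [hG]
      exact Nat.le_of_dvd hGpos hd3
    have hx' : x' ∈ Cl x := by
      refine Finset.mem_filter.2 ⟨?_, hb, hD⟩
      rw [hmemF, ← hval1, ← hb, hval1]
    rw [← heq, L4 G hGpos] at hx'
    exact hx'.symm
  -- finiteness
  have hfin : {x | it f N x ∈ P}.Finite := by
    have : {x | it f N x ∈ P} = ⋃ p ∈ P, {x | (itp f N).eval x = p} := by
      ext z
      simp [L1]
    rw [this]
    refine hA.fin.biUnion fun p _ => ?_
    refine (fibre (itp f N) p).finite_toSet.subset fun z hz => ?_
    rw [Finset.mem_coe, L4 _ hFpos]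
    exact hz
  refine (hfin.image (fun x => G.eval x)).subset ?_
  rintro z ⟨z', hzz, hb, hD⟩
  have hsurj : ∀ w : ℂ, ∃ x, G.eval x = w := by
    intro w
    have hcd : (fibre G w).Nonempty := by
      rw [Finset.nonempty_iff_ne_empty]
      intro h0
      have := L5 G hGpos w
      rw [h0, Finset.sum_empty] at this
      omega
    obtain ⟨x, hx⟩ := hcd
    exact ⟨x, (L4 G hGpos _ _).1 hx⟩
  obtain ⟨x, hx⟩ := hsurj z
  obtain ⟨x', hx'⟩ := hsurj z'
  refine ⟨x, ?_, hx⟩
  by_contra hxP
  have := key x hxP x' (by rw [eval_comp, eval_comp, hx, hx', hb])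
    (by rw [eval_comp, eval_comp, hx, hx', hD])
  rw [hx, hx'] at this
  exact hzz this.symm

end PCF.H91
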