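import Pool.Agent.Work.MP_80ff4e_al_91.Final
import Pool.Agent.Work.MP_80ff4e_al_91.FN
import Pool.Agent.Work.MP_80ff4e_al_91.GI
import Pool.Agent.Work.MP_80ff4e_al_helper39.EX
import Pool.Agent.Work.MP_80ff4e_al_helper21.SG
import Pool.Agent.Work.MP_80ff4e_al_56.MV
import Pool.Agent.Work.MP_80ff4e_al_56.CT
import Pool.Agent.Work.MP_80ff4e_al_helper72.PW
import Pool.Agent.Work.MP_80ff4e_al_helper72.CC
import Pool.Agent.Work.MP_80ff4e_al_helper82.RD
import Pool.Agent.Work.MP_80ff4e_al_helper52.HM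
import Pool.Agent.Work.MP_80ff4e_al_helper80.JS
import Pool.Agent.Work.MP_80ff4e_al_helper80.RL

/-!
# MP_80ff4e_al: the main theorem, sharp form
-/

set_option autoImplicit false

open Polynomial

namespace PCF.H91

theorem fin_MV : Stmt_MV := stmt_MV stmt_L stmt_PA1

theorem fin_RL : Stmt_RL := stmt_RL stmt_PA2 stmt_TR

theorem fin_FN : Stmt_FN :=
  stmt_FN stmt_L stmt_PA3 (stmt_RD fin_RL fin_MV) (stmt_HM fin_RL fin_MV)
    (stmt_JS fin_RL (stmt_GI stmt_L) fin_MV) (stmt_JW fin_RL) (stmt_SG stmt_L stmt_EX)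
    (stmt_PW stmt_L) (stmt_CC stmt_L) (stmt_CT stmt_PA1)

theorem main3 : Stmt_MAIN3 := stmt_MAIN3 main fin_FN

end PCF.H91
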